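import Pool.Agent.H962.Peierls

/-!
# Disproof of the `√q` conjecture for the boundary-cluster weight, for large `q`

The problem asks, for the critical random-cluster model on domains `Ω` of `ℤ²` with
weight `q_b` for the clusters touching the boundary cycle, whether the limit is free for
`q_b > √q`, wired for `q_b < √q` and `(free + wired)/2` for `q_b = √q`.
We show that for `q ≥ 2^180` this fails for **every** `q_b ∈ [√q, q^{3/4}/2^16]`, along
**every** increasing exhausting sequence of domains.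

How the definitions match the problem file:
* `Edge`: edges of `ℤ²`. `openGraph η`: graph of open edges, its components are the clusters.
* a domain (a simple cycle `P` together with the part of `ℤ²` it encloses) is given by the finite
  set `D` of unit squares (named by their lower left corners) enclosed by `P`; the sets of squares
  enclosed by simple cycles of `ℤ²` are exactly the finite nonempty sets `D` such that both `D` and
  its complement are connected through shared sides (`IsDomain`).  `vertices D`, `edges D` are the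
  vertices and edges of `Ω` (those of `P` included), `cycleEdges D` are the edges of `P` (edges
  of `Ω` not shared by two squares of `D`) and `boundaryVertices D` are the vertices of `P`.
* `RC q b p D`: the measure of the problem, on `{0,1}^{E(ℤ²)}` (edges outside `Ω` closed).
* `WeakTo`: weak convergence of measures. `IsFree`, `IsWired`: the free and wired infinite-volume
  measures, i.e. the weak limits of `RC` with `q_b = q` and `q_b = 1` along centred squares.
-/

open Filter Topology MeasureTheory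

namespace Pool.Agent.Results.MP_0de4a2_pr.WiredBeyondSqrt

/-- An edge of `ℤ²`: `(x, false)` joins `x` and `x + (1,0)`; `(x, true)` joins `x` and
`x + (0,1)`. -/
abbrev Edge := (ℤ × ℤ) × Bool

/-- First endpoint. -/
def endA (e : Edge) : ℤ × ℤ := e.1

/-- Second endpoint. -/
def endB (e : Edge) : ℤ × ℤ := if e.2 then (e.1.1, e.1.2 + 1) else (e.1.1 + 1, e.1.2)

/-- The graph on `ℤ²` of the open edges. -/
def openGraph (η : Set Edge) : SimpleGraph (ℤ × ℤ) :=
  SimpleGraph.fromRel (fun x y => ∃ e ∈ η, endA e = x ∧ endB e = y)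

/-- The four corners of the unit square with lower left corner `c`. -/
def corners (c : ℤ × ℤ) : Finset (ℤ × ℤ) :=
  {c, (c.1 + 1, c.2), (c.1, c.2 + 1), (c.1 + 1, c.2 + 1)}

/-- The four sides of the unit square with lower left corner `c`. -/
def sides (c : ℤ × ℤ) : Finset Edge :=
  {(c, false), (c, true), ((c.1, c.2 + 1), false), ((c.1 + 1, c.2), true)}

/-- Vertices of the domain. -/
def vertices (D : Finset (ℤ × ℤ)) : Finset (ℤ × ℤ) := D.biUnion corners

/-- Edges of the domain (including those of the boundary cycle). -/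
def edges (D : Finset (ℤ × ℤ)) : Finset Edge := D.biUnion sides

/-- Edges of the boundary cycle: those that are a side of exactly one square of `D`. -/
def cycleEdges (D : Finset (ℤ × ℤ)) : Finset Edge :=
  (edges D).filter (fun e => (D.filter (fun c => e ∈ sides c)).card = 1)

/-- Vertices of the boundary cycle. -/
def boundaryVertices (D : Finset (ℤ × ℤ)) : Finset (ℤ × ℤ) :=
  (cycleEdges D).image endA ∪ (cycleEdges D).image endB

/-- Two unit squares sharing a side. -/
def squareGraph : SimpleGraph (ℤ × ℤ) :=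
  SimpleGraph.fromRel (fun c d => (sides c ∩ sides d).Nonempty)

/-- Domains, given by the set of enclosed unit squares. -/
structure IsDomain (D : Finset (ℤ × ℤ)) : Prop where
  nonempty : D.Nonempty
  connected : (squareGraph.induce (↑D : Set (ℤ × ℤ))).Preconnected
  co_connected : (squareGraph.induce ((↑D : Set (ℤ × ℤ))ᶜ)).Preconnected

open Classical in
/-- Number of clusters of `η` meeting the finite set `S` of vertices. -/
noncomputable def clustersMeeting (η : Finset Edge) (S : Finset (ℤ × ℤ)) : ℕ :=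
  (S.image (openGraph (↑η)).connectedComponentMk).card

/-- Number of boundary clusters. -/
noncomputable def kBoundary (D : Finset (ℤ × ℤ)) (η : Finset Edge) : ℕ :=
  clustersMeeting η (boundaryVertices D)

/-- Number of interior clusters. -/
noncomputable def kInterior (D : Finset (ℤ × ℤ)) (η : Finset Edge) : ℕ :=
  clustersMeeting η (vertices D) - clustersMeeting η (boundaryVertices D)

/-- The weight of a configuration `η ⊆ E(Ω)`. -/
noncomputable def weight (q b p : ℝ) (D : Finset (ℤ × ℤ)) (η : Finset Edge) : ℝ :=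
  q ^ (kInterior D η) * b ^ (kBoundary D η) * p ^ η.card * (1 - p) ^ ((edges D).card - η.card)

/-- The random-cluster measure with weight `b` for the boundary clusters. -/
noncomputable def RC (q b p : ℝ) (D : Finset (ℤ × ℤ)) : Measure (Edge → Bool) :=
  ∑ η ∈ (edges D).powerset, ENNReal.ofReal
    (weight q b p D η / ∑ ζ ∈ (edges D).powerset, weight q b p D ζ) •
      Measure.dirac (fun e => decide (e ∈ η))

/-- The critical point. -/
noncomputable def pc (q : ℝ) : ℝ := √q / (√q + 1)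

/-- Weak convergence of measures on `{0,1}^{E(ℤ²)}`. -/
def WeakTo (μ : ℕ → Measure (Edge → Bool)) (φ : Measure (Edge → Bool)) : Prop :=
  ∀ f : BoundedContinuousFunction (Edge → Bool) ℝ,
    Tendsto (fun k => ∫ ω, f ω ∂(μ k)) atTop (𝓝 (∫ ω, f ω ∂φ))

/-- The centred square domain with vertex set `[-n, n]²`. -/
noncomputable def square (n : ℕ) : Finset (ℤ × ℤ) :=
  Finset.Ico (-(n : ℤ)) n ×ˢ Finset.Ico (-(n : ℤ)) n

/-- Increasing sequences of domains exhausting `ℤ²`. -/
structure Exhausting (D : ℕ → Finset (ℤ × ℤ)) : Prop where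
  domain : ∀ k, IsDomain (D k)
  mono : Monotone D
  exhaust : ∀ c, ∃ k, c ∈ D k

/-- `φ` is the free infinite-volume critical measure. -/
def IsFree (q : ℝ) (φ : Measure (Edge → Bool)) : Prop :=
  WeakTo (fun n => RC q q (pc q) (square (n + 1))) φ

/-- `φ` is the wired infinite-volume critical measure. -/
def IsWired (q : ℝ) (φ : Measure (Edge → Bool)) : Prop :=
  WeakTo (fun n => RC q 1 (pc q) (square (n + 1))) φ

open Classical in
/-- The limit prescribed by the conjecture. -/
noncomputable def prescribed (q b : ℝ) (φ0 φ1 : Measure (Edge → Bool)) : Measure (Edge → Bool) :=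
  if √q < b then φ0 else if b < √q then φ1 else (2⁻¹ : ENNReal) • (φ0 + φ1)

/-! ### Comparison with the helper definitions -/

section Compare

open Pool.Agent.H962

lemma openGraph_eq (η : Set Edge) : openGraph η = G η := by
  ext x y
  unfold openGraph
  rw [SimpleGraph.fromRel_adj]
  constructor
  · rintro ⟨-, ⟨e, he, h1, h2⟩ | ⟨e, he, h1, h2⟩⟩
    · exact ⟨e, he, Or.inl ⟨h1, h2⟩⟩
    · exact ⟨e, he, Or.inr ⟨h1, h2⟩⟩
  · intro h
    refine ⟨h.ne, ?_⟩
    obtain ⟨e, he, ⟨h1, h2⟩ | ⟨h1, h2⟩⟩ := h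
    · exact Or.inl ⟨e, he, h1, h2⟩
    · exact Or.inr ⟨e, he, h1, h2⟩

lemma vertices_eq (D : Finset (ℤ × ℤ)) : vertices D = verts D := rfl

lemma edges_eq (D : Finset (ℤ × ℤ)) : edges D = adjE D := rfl

lemma cycleEdges_eq (D : Finset (ℤ × ℤ)) : cycleEdges D = bdE D := by
  classical
  ext e
  unfold cycleEdges
  rw [Finset.mem_filter, edges_eq, mem_adjE, mem_bdE]
  have hs : ∀ c, e ∈ sides c ↔ c1 e = c ∨ c2 e = c := fun c => mem_cellEdges
  have hf : D.filter (fun c => e ∈ sides c) = ({c1 e, c2 e} : Finset (ℤ × ℤ)).filter (· ∈ D) := by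
    ext c
    rw [Finset.mem_filter, Finset.mem_filter, hs, Finset.mem_insert, Finset.mem_singleton]
    constructor
    · rintro ⟨h1, h2 | h2⟩
      · exact ⟨Or.inl h2.symm, h1⟩
      · exact ⟨Or.inr h2.symm, h1⟩
    · rintro ⟨h2 | h2, h1⟩
      · exact ⟨h1, Or.inl h2.symm⟩
      · exact ⟨h1, Or.inr h2.symm⟩
  rw [hf, Finset.filter_insert, Finset.filter_singleton]
  have hne := c1_ne_c2 e
  by_cases h1 : c1 e ∈ D <;> by_cases h2 : c2 e ∈ D
  · rw [if_pos h1, if_pos h2, Finset.card_pair hne]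
    tauto
  · rw [if_pos h1, if_neg h2]
    simp [h1, h2]
  · rw [if_neg h1, if_pos h2]
    simp [h1, h2]
  · rw [if_neg h1, if_neg h2]
    simp [h1, h2]

lemma boundaryVertices_eq (D : Finset (ℤ × ℤ)) : boundaryVertices D = bdV D := by
  unfold boundaryVertices bdV
  rw [cycleEdges_eq]
  rfl

lemma clustersMeeting_eq (η : Finset Edge) (S : Finset (ℤ × ℤ)) :
    clustersMeeting η S = comps (G (↑η)) S := by
  unfold clustersMeeting comps
  rw [openGraph_eq]

lemma squareGraph_adj {c d : ℤ × ℤ} (h : squareGraph.Adj c d) :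
    ∃ e : Edge, (c1 e = c ∧ c2 e = d) ∨ (c1 e = d ∧ c2 e = c) := by
  unfold squareGraph at h
  rw [SimpleGraph.fromRel_adj] at h
  obtain ⟨hne, h⟩ := h
  have key : ∀ c d : ℤ × ℤ, c ≠ d → (sides c ∩ sides d).Nonempty →
      ∃ e : Edge, (c1 e = c ∧ c2 e = d) ∨ (c1 e = d ∧ c2 e = c) := by
    rintro c d hne ⟨e, he⟩
    rw [Finset.mem_inter] at he
    have h1 : c1 e = c ∨ c2 e = c := mem_cellEdges.1 he.1
    have h2 : c1 e = d ∨ c2 e = d := mem_cellEdges.1 he.2
    refine ⟨e, ?_⟩
    rcases h1 with rfl | rfl <;> rcases h2 with rfl | rfl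
    · exact absurd rfl hne
    · left; exact ⟨rfl, rfl⟩
    · right; exact ⟨rfl, rfl⟩
    · exact absurd rfl hne
  rcases h with h | h
  · exact key c d hne h
  · obtain ⟨e, he⟩ := key d c hne.symm h
    exact ⟨e, he.symm⟩

lemma isDom_of_isDomain {D : Finset (ℤ × ℤ)} (h : IsDomain D) : IsDom D := by
  have key : ∀ (T : Set (ℤ × ℤ)), (∀ e : Edge, c1 e ∈ T → c2 e ∈ T → e ∉ (↑(bdE D) : Set Edge)) →
      (squareGraph.induce T).Preconnected → ∀ c ∈ T, ∀ d ∈ T,
      (H (↑(bdE D) : Set Edge)).Reachable c d := by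
    intro T hT hpre c hc d hd
    have h1 := hpre ⟨c, hc⟩ ⟨d, hd⟩
    obtain ⟨w⟩ := h1
    have h2 : ∀ (x y : T), (squareGraph.induce T).Walk x y →
        (H (↑(bdE D) : Set Edge)).Reachable x.1 y.1 := by
      intro x y w
      induction w with
      | nil => exact SimpleGraph.Reachable.refl _
      | @cons u v w hadj _ ih =>
        refine SimpleGraph.Reachable.trans ?_ ih
        have h3 : squareGraph.Adj u.1 v.1 := hadj
        obtain ⟨e, he⟩ := squareGraph_adj h3
        have h4 : e ∉ (↑(bdE D) : Set Edge) := by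
          rcases he with ⟨h5, h6⟩ | ⟨h5, h6⟩
          · exact hT e (h5 ▸ u.2) (h6 ▸ v.2)
          · exact hT e (h5 ▸ v.2) (h6 ▸ u.2)
        have h7 := H_reach_edge h4
        rcases he with ⟨h5, h6⟩ | ⟨h5, h6⟩
        · rw [h5, h6] at h7
          exact h7
        · rw [h5, h6] at h7
          exact h7.symm
    exact h2 ⟨c, hc⟩ ⟨d, hd⟩ w
  refine ⟨h.nonempty, ?_, ?_⟩
  · intro c hc d hd
    refine key (↑D) ?_ h.connected c hc d hd
    intro e h1 h2
    rw [Finset.mem_coe, mem_bdE, not_not]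
    exact ⟨fun _ => h2, fun _ => h1⟩
  · intro c hc d hd
    refine key ((↑D : Set (ℤ × ℤ))ᶜ) ?_ h.co_connected c hc d hd
    intro e h1 h2
    rw [Finset.mem_coe, mem_bdE, not_not]
    exact ⟨fun h => absurd h h1, fun h => absurd h h2⟩

/-! ### Rectangles are domains -/

/-- Connected inside `T`. -/
def ReachIn (T : Set (ℤ × ℤ)) (c d : ℤ × ℤ) : Prop :=
  ∃ (hc : c ∈ T) (hd : d ∈ T), (squareGraph.induce T).Reachable ⟨c, hc⟩ ⟨d, hd⟩

lemma ReachIn.trans {T : Set (ℤ × ℤ)} {c d e : ℤ × ℤ} (h1 : ReachIn T c d) (h2 : ReachIn T d e) :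
    ReachIn T c e := by
  obtain ⟨a, b, h⟩ := h1
  obtain ⟨_, b', h'⟩ := h2
  exact ⟨a, b', h.trans h'⟩

lemma ReachIn.symm {T : Set (ℤ × ℤ)} {c d : ℤ × ℤ} (h1 : ReachIn T c d) : ReachIn T d c := by
  obtain ⟨a, b, h⟩ := h1
  exact ⟨b, a, h.symm⟩

lemma adj_right (a b : ℤ) : squareGraph.Adj (a, b) (a + 1, b) := by
  unfold squareGraph
  rw [SimpleGraph.fromRel_adj]
  refine ⟨by simp, Or.inl ⟨((a + 1, b), true), ?_⟩⟩
  rw [Finset.mem_inter]
  constructor <;> simp [sides]

lemma adj_up (a b : ℤ) : squareGraph.Adj (a, b) (a, b + 1) := by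
  unfold squareGraph
  rw [SimpleGraph.fromRel_adj]
  refine ⟨by simp, Or.inl ⟨((a, b + 1), false), ?_⟩⟩
  rw [Finset.mem_inter]
  constructor <;> simp [sides]

lemma hline {T : Set (ℤ × ℤ)} {x x' y : ℤ}
    (h : ∀ k, min x x' ≤ k → k ≤ max x x' → (k, y) ∈ T) : ReachIn T (x, y) (x', y) := by
  have key : ∀ x x' : ℤ, x ≤ x' → (∀ k, x ≤ k → k ≤ x' → (k, y) ∈ T) →
      ReachIn T (x, y) (x', y) := by
    intro x x' hxx
    induction x', hxx using Int.leInduction with
    | base =>
      intro h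
      exact ⟨h x le_rfl le_rfl, h x le_rfl le_rfl, SimpleGraph.Reachable.refl _⟩
    | succ m hm ih =>
      intro h
      refine (ih (fun k h1 h2 => h k h1 (by omega))).trans
        ⟨h m hm (by omega), h (m + 1) (by omega) le_rfl, ?_⟩
      apply SimpleGraph.Adj.reachable
      exact adj_right m y
  rcases le_total x x' with h1 | h1
  · exact key x x' h1 (fun k h2 h3 => h k (by omega) (by omega))
  · exact (key x' x h1 (fun k h2 h3 => h k (by omega) (by omega))).symm

lemma vline {T : Set (ℤ × ℤ)} {x y y' : ℤ}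
    (h : ∀ k, min y y' ≤ k → k ≤ max y y' → (x, k) ∈ T) : ReachIn T (x, y) (x, y') := by
  have key : ∀ y y' : ℤ, y ≤ y' → (∀ k, y ≤ k → k ≤ y' → (x, k) ∈ T) →
      ReachIn T (x, y) (x, y') := by
    intro y y' hyy
    induction y', hyy using Int.leInduction with
    | base =>
      intro h
      exact ⟨h y le_rfl le_rfl, h y le_rfl le_rfl, SimpleGraph.Reachable.refl _⟩
    | succ m hm ih =>
      intro h
      refine (ih (fun k h1 h2 => h k h1 (by omega))).trans
        ⟨h m hm (by omega), h (m + 1) (by omega) le_rfl, ?_⟩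
      apply SimpleGraph.Adj.reachable
      exact adj_up x m
  rcases le_total y y' with h1 | h1
  · exact key y y' h1 (fun k h2 h3 => h k (by omega) (by omega))
  · exact (key y' y h1 (fun k h2 h3 => h k (by omega) (by omega))).symm

lemma rect_isDomain {a b c d : ℤ} (hab : a < b) (hcd : c < d) :
    IsDomain (Finset.Ico a b ×ˢ Finset.Ico c d) := by
  have hmem : ∀ x y, (x, y) ∈ (↑(Finset.Ico a b ×ˢ Finset.Ico c d) : Set (ℤ × ℤ)) ↔
      (a ≤ x ∧ x < b) ∧ (c ≤ y ∧ y < d) := by
    intro x y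
    rw [Finset.mem_coe, Finset.mem_product, Finset.mem_Ico, Finset.mem_Ico]
  refine ⟨⟨(a, c), ?_⟩, ?_, ?_⟩
  · rw [Finset.mem_product, Finset.mem_Ico, Finset.mem_Ico]
    exact ⟨⟨le_rfl, hab⟩, le_rfl, hcd⟩
  · rintro ⟨⟨x, y⟩, h1⟩ ⟨⟨x', y'⟩, h2⟩
    have h1' := (hmem x y).1 h1
    have h2' := (hmem x' y').1 h2
    have h3 : ReachIn (↑(Finset.Ico a b ×ˢ Finset.Ico c d) : Set (ℤ × ℤ)) (x, y) (x', y) :=
      hline fun k hk1 hk2 => (hmem k y).2 ⟨by omega, by omega⟩
    have h4 : ReachIn (↑(Finset.Ico a b ×ˢ Finset.Ico c d) : Set (ℤ × ℤ)) (x', y) (x', y') :=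
      vline fun k hk1 hk2 => (hmem x' k).2 ⟨by omega, by omega⟩
    obtain ⟨_, _, h5⟩ := h3.trans h4
    exact h5
  · have hout : ∀ x y, (x, y) ∈ ((↑(Finset.Ico a b ×ˢ Finset.Ico c d) : Set (ℤ × ℤ))ᶜ) ↔
        ¬ ((a ≤ x ∧ x < b) ∧ (c ≤ y ∧ y < d)) := by
      intro x y
      rw [Set.mem_compl_iff, hmem]
    have hfar : ∀ x y, ¬ ((a ≤ x ∧ x < b) ∧ (c ≤ y ∧ y < d)) →
        ReachIn ((↑(Finset.Ico a b ×ˢ Finset.Ico c d) : Set (ℤ × ℤ))ᶜ) (x, y) (b, d) := by
      intro x y hxy
      by_cases h1 : a ≤ x ∧ x < b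
      · have h2 : ¬ (c ≤ y ∧ y < d) := fun h => hxy ⟨h1, h⟩
        refine (hline (x := x) (x' := b) (y := y) fun k hk1 hk2 => (hout k y).2 (by omega)).trans
          (vline (x := b) fun k hk1 hk2 => (hout b k).2 (by omega))
      · refine (vline (x := x) (y := y) (y' := d) fun k hk1 hk2 => (hout x k).2 (by omega)).trans
          (hline (y := d) fun k hk1 hk2 => (hout k d).2 (by omega))
    rintro ⟨⟨x, y⟩, h1⟩ ⟨⟨x', y'⟩, h2⟩
    obtain ⟨_, _, h5⟩ := (hfar x y ((hout x y).1 h1)).trans (hfar x' y' ((hout x' y').1 h2)).symm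
    exact h5

lemma square_exhausting : Exhausting (fun n => square (n + 1)) where
  domain := fun k => rect_isDomain (by push_cast; omega) (by push_cast; omega)
  mono := by
    intro m n hmn
    apply Finset.product_subset_product <;>
    · apply Finset.Ico_subset_Ico <;> push_cast <;> omega
  exhaust := by
    rintro ⟨x, y⟩
    refine ⟨(|x| + |y|).toNat, ?_⟩
    have h1 := abs_nonneg x
    have h2 := abs_nonneg y
    have h3 := le_abs_self x
    have h4 := neg_abs_le x
    have h5 := le_abs_self y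
    have h6 := neg_abs_le y
    unfold square
    rw [Finset.mem_product, Finset.mem_Ico, Finset.mem_Ico]
    push_cast
    rw [Int.toNat_of_nonneg (by omega)]
    constructor <;> constructor <;> omega

lemma verts_square (n : ℕ) (hn : 0 < n) :
    verts (square n) = Finset.Ico (-(n : ℤ)) (n + 1) ×ˢ Finset.Ico (-(n : ℤ)) (n + 1) := by
  ext ⟨x, y⟩
  unfold square
  simp only [mem_verts, Finset.mem_product, Finset.mem_Ico]
  omega

lemma EE_square (n : ℕ) (hn : 0 < n) : EE (verts (square n)) = adjE (square n) := by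
  ext ⟨⟨x, y⟩, t⟩
  rw [verts_square n hn, mem_EE, mem_adjE]
  unfold square
  cases t
  · simp only [src, tgt, c1, c2, Finset.mem_product, Finset.mem_Ico, Bool.false_eq_true, if_false]
    omega
  · simp only [src, tgt, c1, c2, Finset.mem_product, Finset.mem_Ico, if_true]
    omega

lemma square_boxIn (e : Edge) (N : ℕ) : ∀ᶠ n : ℕ in atTop, BoxIn N (c1 (dei e))
    (verts (square (n + 1))) ∧ e ∈ adjE (square (n + 1)) := by
  obtain ⟨⟨x, y⟩, t⟩ := e
  filter_upwards [eventually_ge_atTop ((|x| + |y|).toNat + N + 5)] with n hn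
  have h1 := abs_nonneg x
  have h2 := abs_nonneg y
  have h3 := le_abs_self x
  have h4 := neg_abs_le x
  have h5 := le_abs_self y
  have h6 := neg_abs_le y
  have h7 : |x| + |y| + N + 5 ≤ n := by
    have : (((|x| + |y|).toNat : ℤ)) = |x| + |y| := Int.toNat_of_nonneg (by omega)
    omega
  constructor
  · rintro ⟨c, d⟩ hc hd
    rw [verts_square _ (Nat.succ_pos n), Finset.mem_product, Finset.mem_Ico, Finset.mem_Ico]
    rw [abs_le] at hc hd
    cases t
    · simp only [c1, dei, tgt, Bool.false_eq_true, if_false] at hc hd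
      push_cast
      omega
    · simp only [c1, dei, tgt, if_true] at hc hd
      push_cast
      omega
  · rw [mem_adjE]
    left
    unfold square
    simp only [c1, Finset.mem_product, Finset.mem_Ico]
    push_cast
    omega

lemma exhaust_boxIn {D : ℕ → Finset (ℤ × ℤ)} (hD : Exhausting D) (f : ℤ × ℤ) (N : ℕ) :
    ∀ᶠ k in atTop, BoxIn N f (D k) := by
  have h1 : ∀ c ∈ (Finset.Icc (f.1 - N) (f.1 + N) ×ˢ Finset.Icc (f.2 - N) (f.2 + N)),
      ∀ᶠ k in atTop, c ∈ D k := by
    intro c _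
    obtain ⟨k, hk⟩ := hD.exhaust c
    filter_upwards [eventually_ge_atTop k] with m hm
    exact hD.mono hm hk
  have h2 := (Filter.eventually_all_finset _).2 h1
  filter_upwards [h2] with k hk c hc1 hc2
  apply hk
  rw [Finset.mem_product, Finset.mem_Icc, Finset.mem_Icc]
  rw [abs_le] at hc1 hc2
  omega

/-! ### The measure `RC` -/

lemma weight_eq {q b : ℝ} (hq : 0 < q) (D : Finset (ℤ × ℤ)) {η : Finset Edge}
    (hη : η ⊆ edges D) :
    weight q b (pc q) D η = wt q b (√q) D η / (√q + 1) ^ (edges D).card := by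
  have hs : 0 < √q := Real.sqrt_pos.2 hq
  have h1 : 1 - pc q = 1 / (√q + 1) := by
    unfold pc
    field_simp
    ring
  have h2 : (√q + 1) ^ (edges D).card = (√q + 1) ^ η.card * (√q + 1) ^ ((edges D).card - η.card) := by
    rw [← pow_add]
    congr 1
    have := Finset.card_le_card hη
    omega
  unfold weight wt kInterior kBoundary ki kb
  rw [clustersMeeting_eq, clustersMeeting_eq, boundaryVertices_eq, vertices_eq, h1, h2]
  unfold pc
  rw [div_pow, div_pow, one_pow]
  field_simp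

lemma wt_pos' {q b s : ℝ} (hq : 0 < q) (hb : 0 < b) (hs : 0 < s) (D : Finset (ℤ × ℤ))
    (α : Finset Edge) : 0 < wt q b s D α := by
  unfold wt
  positivity

lemma ZD_pos {q b s : ℝ} (hq : 0 < q) (hb : 0 < b) (hs : 0 < s) (D : Finset (ℤ × ℤ)) :
    0 < ZD q b s D :=
  Finset.sum_pos (fun η _ => wt_pos' hq hb hs D η) ⟨∅, Finset.empty_mem_powerset _⟩

lemma RC_eq {q b : ℝ} (hq : 0 < q) (hb : 0 < b) (D : Finset (ℤ × ℤ)) :
    RC q b (pc q) D = ∑ η ∈ (adjE D).powerset, ENNReal.ofReal
      (wt q b (√q) D η / ZD q b (√q) D) • Measure.dirac (fun e => decide (e ∈ η)) := by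
  have hs : 0 < √q := Real.sqrt_pos.2 hq
  have hZ := ZD_pos hq hb hs D
  unfold RC
  rw [edges_eq]
  apply Finset.sum_congr rfl
  intro η hη
  rw [Finset.mem_powerset] at hη
  congr 2
  have h1 : ∑ ζ ∈ (adjE D).powerset, weight q b (pc q) D ζ =
      ZD q b (√q) D / (√q + 1) ^ (adjE D).card := by
    unfold ZD
    rw [Finset.sum_div]
    apply Finset.sum_congr rfl
    intro ζ hζ
    rw [Finset.mem_powerset] at hζ
    exact weight_eq hq D hζ
  rw [h1, weight_eq hq D hη, edges_eq]
  field_simp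

instance RC_finite (q b p : ℝ) (D : Finset (ℤ × ℤ)) : IsFiniteMeasure (RC q b p D) := by
  unfold RC
  have : ∀ η ∈ (edges D).powerset, IsFiniteMeasure (ENNReal.ofReal
      (weight q b p D η / ∑ ζ ∈ (edges D).powerset, weight q b p D ζ) •
      Measure.dirac (fun e => decide (e ∈ η))) := by
    intro η _
    exact Measure.smul_finite _ ENNReal.ofReal_ne_top
  constructor
  rw [Measure.finsetSum_apply]
  rw [ENNReal.sum_lt_top]
  intro η hη
  have := this η hη
  exact measure_lt_top _ _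

open Classical in
lemma integral_RC {q b : ℝ} (hq : 0 < q) (hb : 0 < b) (D : Finset (ℤ × ℤ))
    (f : (Edge → Bool) → ℝ) (hf : Measurable f) :
    ∫ ω, f ω ∂(RC q b (pc q) D) =
      (∑ η ∈ (adjE D).powerset, wt q b (√q) D η * f (fun e => decide (e ∈ η))) /
        ZD q b (√q) D := by
  have hs : 0 < √q := Real.sqrt_pos.2 hq
  have hZ := ZD_pos hq hb hs D
  rw [RC_eq hq hb, integral_finsetSum_measure, Finset.sum_div]
  · apply Finset.sum_congr rfl
    intro η _
    rw [integral_smul_measure, integral_dirac' _ _ hf.stronglyMeasurable,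
      ENNReal.toReal_ofReal (div_nonneg (wt_pos' hq hb hs D η).le hZ.le), smul_eq_mul]
    ring
  · intro η _
    apply Integrable.smul_measure _ ENNReal.ofReal_ne_top
    exact integrable_dirac' hf.stronglyMeasurable (by simp)

/-- the indicator that the edge `e` is open, as a continuous function. -/
noncomputable def openInd (e : Edge) : BoundedContinuousFunction (Edge → Bool) ℝ :=
  BoundedContinuousFunction.mkOfBound
    ⟨fun ω => if ω e then 1 else 0,
      (continuous_of_discreteTopology (f := fun b : Bool => if b then (1 : ℝ) else 0)).comp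
        (continuous_apply e)⟩ 1 (by
    intro x y
    simp only [ContinuousMap.coe_mk, Real.dist_eq]
    split_ifs <;> simp)

lemma openInd_apply (e : Edge) (ω : Edge → Bool) : openInd e ω = if ω e then 1 else 0 := rfl

lemma meas_open (e : Edge) : MeasurableSet {ω : Edge → Bool | ω e = true} := by
  have h : Measurable (fun ω : Edge → Bool => ω e) := measurable_pi_apply e
  exact h (MeasurableSet.singleton true)

lemma real_open_eq (μ : Measure (Edge → Bool)) [IsFiniteMeasure μ] (e : Edge) :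
    μ.real {ω : Edge → Bool | ω e = true} = ∫ ω, openInd e ω ∂μ := by
  have h1 : (fun ω => openInd e ω) = Set.indicator {ω : Edge → Bool | ω e = true} 1 := by
    funext ω
    rw [openInd_apply]
    simp [Set.indicator_apply]
  rw [h1, integral_indicator_one (meas_open e)]

open Classical in
lemma prob_open {q b : ℝ} (hq : 0 < q) (hb : 0 < b) (D : Finset (ℤ × ℤ)) (e : Edge) :
    ∫ ω, openInd e ω ∂(RC q b (pc q) D) =
      (∑ η ∈ (adjE D).powerset.filter (fun η => e ∈ η), wt q b (√q) D η) / ZD q b (√q) D := by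
  rw [integral_RC hq hb D _ (openInd e).continuous.measurable]
  congr 1
  rw [Finset.sum_filter]
  apply Finset.sum_congr rfl
  intro η _
  rw [openInd_apply]
  by_cases h : e ∈ η <;> simp [h]

lemma params {q : ℝ} (hq : (2 : ℝ) ^ 180 ≤ q) : ∃ t : ℝ, (2 : ℝ) ^ 45 ≤ t ∧ √q * √q = q ∧
    t * t = √q ∧ q ^ (3 / 4 : ℝ) = t ^ 3 := by
  have hq0 : (0 : ℝ) < q := lt_of_lt_of_le (by positivity) hq
  refine ⟨√(√q), ?_, Real.mul_self_sqrt hq0.le, Real.mul_self_sqrt (Real.sqrt_nonneg _), ?_⟩
  · have h1 : ((2 : ℝ) ^ 90) ≤ √q := by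
      rw [show (2 : ℝ) ^ 90 = √((2 ^ 90) ^ 2) by rw [Real.sqrt_sq (by positivity)]]
      apply Real.sqrt_le_sqrt
      calc ((2 : ℝ) ^ 90) ^ 2 = 2 ^ 180 := by norm_num
        _ ≤ q := hq
    rw [show (2 : ℝ) ^ 45 = √((2 ^ 45) ^ 2) by rw [Real.sqrt_sq (by positivity)]]
    apply Real.sqrt_le_sqrt
    calc ((2 : ℝ) ^ 45) ^ 2 = 2 ^ 90 := by norm_num
      _ ≤ √q := h1
  · rw [Real.sqrt_eq_rpow, Real.sqrt_eq_rpow, ← Real.rpow_mul hq0.le, ← Real.rpow_natCast,
      ← Real.rpow_mul hq0.le]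
    norm_num

lemma bound_small {q t x : ℝ} (hq0 : 0 < q) (hqt : q = t ^ 4) (ht : (2 : ℝ) ^ 45 ≤ t)
    (hx0 : 0 ≤ x) (hx : x ≤ 1 / 2) : ∃ N : ℕ, 1 ≤ N ∧
      2 * q * (2 ^ 14 / t) ^ 6 + 2 * q * x ^ N ≤ 1 / 4 := by
  have ht0 : 0 < t := lt_of_lt_of_le (by positivity) ht
  obtain ⟨N, hN⟩ := exists_nat_gt (16 * q)
  refine ⟨N + 1, by omega, ?_⟩
  have h1 : 2 * q * (2 ^ 14 / t) ^ 6 ≤ 1 / 8 := by
    have h2 : 2 * q * (2 ^ 14 / t) ^ 6 = 2 ^ 85 / t ^ 2 := by
      rw [hqt]
      field_simp
    rw [h2, div_le_iff₀ (by positivity)]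
    have h3 : ((2 : ℝ) ^ 45) ^ 2 ≤ t ^ 2 := pow_le_pow_left₀ (by positivity) ht 2
    calc (2 : ℝ) ^ 85 ≤ 1 / 8 * ((2 : ℝ) ^ 45) ^ 2 := by norm_num
      _ ≤ 1 / 8 * t ^ 2 := by linarith
  have h2 : 2 * q * x ^ (N + 1) ≤ 1 / 8 := by
    have h3 : x ^ (N + 1) ≤ (1 / 2) ^ (N + 1) := pow_le_pow_left₀ hx0 hx _
    have h4 : ((N : ℝ)) < 2 ^ N := by exact_mod_cast Nat.lt_two_pow_self
    have h5 : (1 / 2 : ℝ) ^ (N + 1) = 1 / (2 * 2 ^ N) := by
      rw [one_div, inv_pow, pow_succ, one_div, mul_comm]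
    rw [h5] at h3
    have h6 : (0 : ℝ) < 2 ^ N := by positivity
    calc 2 * q * x ^ (N + 1) ≤ 2 * q * (1 / (2 * 2 ^ N)) :=
          mul_le_mul_of_nonneg_left h3 (by positivity)
      _ = q / 2 ^ N := by field_simp
      _ ≤ 1 / 8 := by
        rw [div_le_iff₀ h6]
        linarith
  linarith

lemma large_wired {q b : ℝ} (hq : (2 : ℝ) ^ 180 ≤ q) (hb : 1 ≤ b)
    (hb' : b ≤ q ^ (3 / 4 : ℝ) / 2 ^ 16)
    {D : ℕ → Finset (ℤ × ℤ)} (hD : Exhausting D) (e : Edge) :
    ∀ᶠ k in atTop, 3 / 4 ≤ ∫ ω, openInd e ω ∂(RC q b (pc q) (D k)) := by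
  classical
  obtain ⟨t, ht, hqs, hst, hq34⟩ := params hq
  have hq0 : (0 : ℝ) < q := lt_of_lt_of_le (by positivity) hq
  have ht0 : 0 < t := lt_of_lt_of_le (by positivity) ht
  have ht1 : 1 ≤ t := le_trans (by norm_num) ht
  have hb0 : 0 < b := by linarith
  set s := √q with hs
  have hs0 : 0 < s := Real.sqrt_pos.2 hq0
  have hqt : q = t ^ 4 := by rw [← hqs, ← hst]; ring
  have hx : 2 ^ 14 * (1 + b / s) / t ≤ 1 / 2 := by
    have h1 : b / (s * t) ≤ 1 / 2 ^ 16 := by
      rw [div_le_iff₀ (by positivity)]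
      calc b ≤ t ^ 3 / 2 ^ 16 := by rw [← hq34]; exact hb'
        _ = 1 / 2 ^ 16 * (s * t) := by rw [← hst]; ring
    have h2 : 1 / t ≤ 1 / 2 ^ 45 := one_div_le_one_div_of_le (by positivity) ht
    have h3 : 2 ^ 14 * (1 + b / s) / t = 2 ^ 14 * (1 / t) + 2 ^ 14 * (b / (s * t)) := by
      field_simp
    rw [h3]
    calc 2 ^ 14 * (1 / t) + 2 ^ 14 * (b / (s * t)) ≤ 2 ^ 14 * (1 / 2 ^ 45) + 2 ^ 14 * (1 / 2 ^ 16) :=
          by gcongr
      _ ≤ 1 / 2 := by norm_num
  obtain ⟨N, hN1, hN⟩ := bound_small hq0 hqt ht (by positivity) hx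
  filter_upwards [exhaust_boxIn hD (c1 e) N] with k hk
  have hdom := isDom_of_isDomain (hD.domain k)
  have heE : e ∈ Ein (D k) := by
    rw [mem_Ein]
    constructor
    · apply hk <;> simp
    · apply hk
      · obtain ⟨⟨a, b⟩, t⟩ := e
        cases t <;> simp [c1, c2]
        omega
      · obtain ⟨⟨a, b⟩, t⟩ := e
        cases t <;> simp [c1, c2]
        omega
  have hZ := ZD_pos (b := b) hq0 hb0 hs0 (D k)
  have h1 := closed_bound hqs hst ht1 hb hdom heE hk hx
  have h2 : ∑ η ∈ (adjE (D k)).powerset.filter (fun η => e ∈ η), wt q b s (D k) η +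
      ∑ η ∈ (adjE (D k)).powerset.filter (fun η => e ∉ η), wt q b s (D k) η =
      ZD q b s (D k) := Finset.sum_filter_add_sum_filter_not _ _ _
  have h3 : ∑ η ∈ (adjE (D k)).powerset.filter (fun η => e ∉ η), wt q b s (D k) η ≤
      1 / 4 * ZD q b s (D k) := h1.trans (mul_le_mul_of_nonneg_right hN hZ.le)
  rw [prob_open hq0 hb0, le_div_iff₀ hZ]
  linarith

lemma free_small {q : ℝ} (hq : (2 : ℝ) ^ 180 ≤ q) (e : Edge) :
    ∀ᶠ n in atTop, ∫ ω, openInd e ω ∂(RC q q (pc q) (square (n + 1))) ≤ 1 / 4 := by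
  classical
  obtain ⟨t, ht, hqs, hst, hq34⟩ := params hq
  have hq0 : (0 : ℝ) < q := lt_of_lt_of_le (by positivity) hq
  have ht0 : 0 < t := lt_of_lt_of_le (by positivity) ht
  have ht1 : 1 ≤ t := le_trans (by norm_num) ht
  set s := √q with hs
  have hs0 : 0 < s := Real.sqrt_pos.2 hq0
  have hs1 : 1 ≤ s := by rw [← hst]; nlinarith
  have hqt : q = t ^ 4 := by rw [← hqs, ← hst]; ring
  have hx : 2 ^ 14 * (1 + 1 / s) / t ≤ 1 / 2 := by
    have h1 : 1 / s ≤ 1 := by
      rw [div_le_one hs0]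
      exact hs1
    have h2 : 1 / t ≤ 1 / 2 ^ 45 := one_div_le_one_div_of_le (by positivity) ht
    calc 2 ^ 14 * (1 + 1 / s) / t = 2 ^ 14 * (1 + 1 / s) * (1 / t) := by ring
      _ ≤ 2 ^ 14 * (1 + 1) * (1 / 2 ^ 45) := by gcongr
      _ ≤ 1 / 2 := by norm_num
  obtain ⟨N, hN1, hN⟩ := bound_small hq0 hqt ht (by positivity) hx
  filter_upwards [square_boxIn e N] with n hn
  have hdom : IsDom (verts (square (n + 1))) := by
    rw [verts_square _ (Nat.succ_pos n)]
    exact isDom_of_isDomain (rect_isDomain (by push_cast; omega) (by push_cast; omega))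
  have hZ := ZD_pos (b := q) hq0 hq0 hs0 (square (n + 1))
  have h1 := free_open_bound hqs hst ht1 hdom (EE_square _ (Nat.succ_pos n)) hn.2 hn.1 hx
  rw [prob_open hq0 hq0, div_le_iff₀ hZ]
  exact h1.trans (mul_le_mul_of_nonneg_right hN hZ.le)

end Compare

/-- **Main theorem.** For every `q ≥ 2^180`, every boundary weight `b ∈ [√q, q^{3/4}/2^16]` and
every increasing exhausting sequence of domains, every edge is eventually open with probability
at least `3/4` under `RC^b`, while it is eventually open with probability at most `1/4` under the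
free measure; consequently `RC^b` does not converge to the measure prescribed by the conjecture
(free for `b > √q`, the half-half mixture for `b = √q`). -/
theorem result :
    Exhausting (fun n => square (n + 1)) ∧
    ∀ q : ℝ, 2 ^ 180 ≤ q → ∀ b : ℝ, √q ≤ b → b ≤ q ^ (3 / 4 : ℝ) / 2 ^ 16 →
      ∀ D : ℕ → Finset (ℤ × ℤ), Exhausting D →
        (∀ e : Edge, ∀ᶠ k in atTop, 3 / 4 ≤ (RC q b (pc q) (D k)).real {ω | ω e = true}) ∧
        (∀ e : Edge, ∀ᶠ n in atTop,
          (RC q q (pc q) (square (n + 1))).real {ω | ω e = true} ≤ 1 / 4) ∧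
        ∀ φ0 φ1 : Measure (Edge → Bool), IsProbabilityMeasure φ0 → IsProbabilityMeasure φ1 →
          IsFree q φ0 → IsWired q φ1 →
          ¬ WeakTo (fun k => RC q b (pc q) (D k)) (prescribed q b φ0 φ1) := by
  refine ⟨square_exhausting, ?_⟩
  intro q hq b hb hb' D hD
  have hq0 : (0 : ℝ) < q := lt_of_lt_of_le (by positivity) hq
  have hs1 : 1 ≤ √q := by
    rw [Real.one_le_sqrt]
    exact le_trans (by norm_num) hq
  have hb1 : 1 ≤ b := hs1.trans hb
  refine ⟨?_, ?_, ?_⟩
  · intro e
    filter_upwards [large_wired hq hb1 hb' hD e] with k hk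
    rw [real_open_eq]
    exact hk
  · intro e
    filter_upwards [free_small hq e] with n hn
    rw [real_open_eq]
    exact hn
  · intro φ0 φ1 h0 h1 hfree _ hlim
    set e : Edge := ((0, 0), false) with he
    have hA : ∫ ω, openInd e ω ∂φ0 ≤ 1 / 4 :=
      le_of_tendsto (hfree (openInd e)) (free_small hq e)
    have hB : 3 / 4 ≤ ∫ ω, openInd e ω ∂(prescribed q b φ0 φ1) :=
      ge_of_tendsto (hlim (openInd e)) (large_wired hq hb1 hb' hD e)
    have hC : ∫ ω, openInd e ω ∂φ1 ≤ 1 := by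
      have h2 : ∫ ω, openInd e ω ∂φ1 ≤ ∫ _ω, (1 : ℝ) ∂φ1 := by
        apply integral_mono ((openInd e).integrable φ1) (integrable_const _)
        intro ω
        change openInd e ω ≤ 1
        rw [openInd_apply]
        split_ifs <;> norm_num
      simpa using h2
    unfold prescribed at hB
    rcases hb.lt_or_eq with hlt | heq
    · rw [if_pos hlt] at hB
      linarith
    · rw [if_neg (by rw [heq]; exact lt_irrefl _), if_neg (by rw [heq]; exact lt_irrefl _),
        integral_smul_measure, integral_add_measure ((openInd e).integrable φ0)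
          ((openInd e).integrable φ1), ENNReal.toReal_inv, ENNReal.toReal_ofNat, smul_eq_mul] at hB
      linarith

end Pool.Agent.Results.MP_0de4a2_pr.WiredBeyondSqrt
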